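import Pool.Agent.H24.Nev3

set_option autoImplicit false

namespace Pool.Agent.Results.MP_e0d2b2_an.Full

universe u

/-- `C` is admissible for the nonzero complex Banach spaces of universe `u`: every bounded
operator `T` with spectrum in the open unit disc and resolvent bounded by `M` outside it has
summable power norms with sum over `j ≥ 1` at most `C * M * (M - 1)`. -/
def Admissible (C : ℝ) : Prop :=
  ∀ (X : Type u) [NormedAddCommGroup X] [NormedSpace ℂ X] [CompleteSpace X] [Nontrivial X]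
    (T : X →L[ℂ] X) (M : ℝ), spectrum ℂ T ⊆ Metric.ball 0 1 →
    (∀ z : ℂ, 1 ≤ ‖z‖ → ‖resolvent T z‖ ≤ M) →
    Summable (fun j : ℕ => ‖T ^ (j + 1)‖) ∧ ∑' j : ℕ, ‖T ^ (j + 1)‖ ≤ C * M * (M - 1)

/-- The optimal constant is `e`. -/
theorem result :
    Admissible.{u} (Real.exp 1) ∧ ∀ C : ℝ, Admissible.{0} C → Real.exp 1 ≤ C := by
  constructor
  · intro X _ _ _ _ T M hs hR
    exact Pool.Agent.H24.Nev.upper T M hs hR
  · intro C h
    exact Pool.Agent.H24.Nev.lower C (fun m => h (Pool.Agent.H24.Nev.Y m)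
      (Pool.Agent.H24.Nev.TT m) _ (Pool.Agent.H24.Nev.spec m) (Pool.Agent.H24.Nev.resb m))

end Pool.Agent.Results.MP_e0d2b2_an.Full
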